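import Mathlib

/-!
# The images of the finite transformation monoids do not generate the universal CP monoid

In a finite monoid every element with a right inverse is a unit. The images `φ_Φ(E_d)` of the full
transformation monoids in a non-zero CP monoid `M` have the same property with respect to right
inverses in `M`; so the submonoid which they generate has it as well, and it does not contain `π₁`,
which has the right inverse `Σ(1,1)` but is not a unit.
-/

set_option autoImplicit false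

universe u

namespace Pool.Agent.Results.MP_339db1_al.ProjectionNotGenerated

/-- A `d`-CP structure on a monoid `M`: a bijection `Φ : M^d → M` and elements `τ_i` with
`τ_i Φ(m) = m_i`. A CP monoid is a monoid with a `2`-CP structure `(Σ; π₁, π₂)`
(here `π₁ = τ 0`, `π₂ = τ 1`). -/
structure DCP (M : Type u) [Monoid M] (d : ℕ) where
  Φ : (Fin d → M) ≃ M
  τ : Fin d → M
  τ_Φ : ∀ (m : Fin d → M) (i : Fin d), τ i * Φ m = m i

/-- The `1`-CP structure `(id; 1)`. -/
def DCP.one (M : Type u) [Monoid M] : DCP M 1 where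
  Φ := Equiv.funUnique (Fin 1) M
  τ := fun _ => 1
  τ_Φ := by
    intro m i
    rw [one_mul, Subsingleton.elim i default]
    rfl

/-- The combination of an `s`-CP structure `Ψ` with `d_i`-CP structures `F i`: the
`∑ d_i`-CP structure with bijection
`Δ(m_11, …, m_{s d_s}) = Ψ(F_1(m_11, …, m_{1 d_1}), …, F_s(m_{s1}, …, m_{s d_s}))` and distinguished
elements `τ_{ij} ρ_i`, in the lexicographic order of the pairs `(i, j)`. -/
def DCP.comb {M : Type u} [Monoid M] {s : ℕ} (Ψ : DCP M s) (d : Fin s → ℕ)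
    (F : ∀ i, DCP M (d i)) : DCP M (∑ i, d i) where
  Φ := (Equiv.arrowCongr (finSigmaFinEquiv (n := d)).symm (Equiv.refl M)).trans
    ((Equiv.piCurry (fun (i : Fin s) (_ : Fin (d i)) => M)).trans
      ((Equiv.piCongrRight fun i => (F i).Φ).trans Ψ.Φ))
  τ := fun k => (F (finSigmaFinEquiv.symm k).1).τ (finSigmaFinEquiv.symm k).2 *
    Ψ.τ (finSigmaFinEquiv.symm k).1
  τ_Φ := by
    intro m k
    obtain ⟨⟨i, j⟩, rfl⟩ := (finSigmaFinEquiv (n := d)).surjective k
    rw [Equiv.symm_apply_apply]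
    show (F i).τ j * Ψ.τ i * Ψ.Φ (fun i => (F i).Φ fun j => m (finSigmaFinEquiv ⟨i, j⟩)) = _
    rw [mul_assoc, Ψ.τ_Φ, (F i).τ_Φ]

/-- The set `𝕊(M)` of all structures obtained from `(Σ; π₁, π₂)` and `(id; 1)` by repeated
combination. -/
inductive InS {M : Type u} [Monoid M] (C : DCP M 2) : (d : ℕ) → DCP M d → Prop
  | base : InS C 2 C
  | one : InS C 1 (DCP.one M)
  | comb {s : ℕ} (Ψ : DCP M s) (d : Fin s → ℕ) (F : ∀ i, DCP M (d i)) :
      InS C s Ψ → (∀ i, InS C (d i) (F i)) → InS C (∑ i, d i) (Ψ.comb d F)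

/-- The map `φ_Φ : E_d → M`, `φ_Φ(f) = Φ(τ_{f(1)}, …, τ_{f(d)})`. -/
def DCP.phi {M : Type u} [Monoid M] {d : ℕ} (D : DCP M d) (f : Fin d → Fin d) : M :=
  D.Φ fun i => D.τ (f i)

/-- The submonoid `G` generated by the sets `φ_Φ(E_d)`, for `2 ≤ d` and all `d`-CP structures in
`𝕊(M)`. -/
def G {M : Type u} [Monoid M] (C : DCP M 2) : Submonoid M :=
  Submonoid.closure {x | ∃ d : ℕ, 2 ≤ d ∧ ∃ D : DCP M d, InS C d D ∧ ∃ f, x = D.phi f}

/-- A homomorphism of CP monoids is a monoid homomorphism `f` with `f(π_i) = τ_i` and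
`f(Σ(a,b)) = Φ(f(a),f(b))`. -/
def IsCPHom {M N : Type u} [Monoid M] [Monoid N] (C : DCP M 2) (D : DCP N 2) (f : M →* N) : Prop :=
  (∀ i, f (C.τ i) = D.τ i) ∧ ∀ m : Fin 2 → M, f (C.Φ m) = D.Φ fun i => f (m i)

/-- `U` with the CP structure `C` is the universal CP monoid, i.e. an initial object of the category
of CP monoids. -/
def IsUniversal {U : Type u} [Monoid U] (C : DCP U 2) : Prop :=
  ∀ (N : Type u) [Monoid N] (D : DCP N 2), ∃! f : U →* N, IsCPHom C D f

variable {M : Type u} [Monoid M] {d : ℕ} (D : DCP M d)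

theorem DCP.Φ_τ (x : M) : D.Φ (fun i => D.τ i * x) = x := by
  obtain ⟨m, rfl⟩ := D.Φ.surjective x
  congr 1
  funext i
  exact D.τ_Φ m i

theorem DCP.Φ_mul (m : Fin d → M) (c : M) : D.Φ m * c = D.Φ fun i => m i * c := by
  rw [← D.Φ_τ (D.Φ m * c)]
  congr 1
  funext i
  rw [← mul_assoc, D.τ_Φ]

theorem DCP.phi_id : D.phi id = 1 := by
  have := D.Φ_τ 1
  simpa [DCP.phi] using this

theorem DCP.phi_mul (f g : Fin d → Fin d) : D.phi f * D.phi g = D.phi (g ∘ f) := by
  rw [DCP.phi, D.Φ_mul, DCP.phi, DCP.phi]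
  congr 1
  funext i
  rw [D.τ_Φ]
  rfl

theorem DCP.τ_inj [Nontrivial M] : Function.Injective D.τ := by
  intro i j hij
  by_contra hne
  obtain ⟨a, b, hab⟩ := exists_pair_ne M
  have h1 := D.τ_Φ (fun k => if k = i then a else b) i
  have h2 := D.τ_Φ (fun k => if k = i then a else b) j
  rw [hij] at h1
  rw [h1] at h2
  simp only [if_true, if_neg (Ne.symm hne)] at h2
  exact hab h2

theorem DCP.phi_inj [Nontrivial M] : Function.Injective D.phi := by
  intro f g h
  have := D.Φ.injective h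
  funext i
  exact D.τ_inj (congrFun this i)

theorem DCP.isUnit_phi [Nontrivial M] (f : Fin d → Fin d) (x : M) (h : D.phi f * x = 1) :
    IsUnit (D.phi f) := by
  have hf : Function.Injective f := by
    intro i j hij
    have h1 : D.phi (fun _ => i) * D.phi f = D.phi (fun _ => j) * D.phi f := by
      rw [D.phi_mul, D.phi_mul]
      congr 1
      funext k
      exact hij
    have h2 : D.phi (fun _ => i) = D.phi (fun _ => j) := by
      rw [← mul_one (D.phi fun _ => i), ← mul_one (D.phi fun _ => j), ← h, ← mul_assoc,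
        ← mul_assoc, h1]
    exact congrFun (D.phi_inj h2) i
  have hb : Function.Bijective f := Finite.injective_iff_bijective.1 hf
  let e : Fin d ≃ Fin d := Equiv.ofBijective f hb
  refine ⟨⟨D.phi f, D.phi e.symm, ?_, ?_⟩, rfl⟩
  · rw [D.phi_mul, ← D.phi_id]
    congr 1
    funext i
    exact e.symm_apply_apply i
  · rw [D.phi_mul, ← D.phi_id]
    congr 1
    funext i
    exact e.apply_symm_apply i

theorem not_mem [Nontrivial M] (C : DCP M 2) :
    C.τ 0 ∉ Submonoid.closure {x : M | ∃ (d : ℕ) (D : DCP M d) (f : Fin d → Fin d), x = D.phi f} := by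
  intro hmem
  have key : ∀ y ∈ Submonoid.closure
      {x : M | ∃ (d : ℕ) (D : DCP M d) (f : Fin d → Fin d), x = D.phi f},
      ∀ x, y * x = 1 → IsUnit y := by
    intro y hy
    induction hy using Submonoid.closure_induction with
    | mem y hy =>
      obtain ⟨d, D, f, rfl⟩ := hy
      exact fun x hx => D.isUnit_phi f x hx
    | one => exact fun _ _ => isUnit_one
    | mul a b _ _ iha ihb =>
      intro x hx
      have ha : IsUnit a := iha (b * x) (by rw [← mul_assoc]; exact hx)
      obtain ⟨v, rfl⟩ := ha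
      have hb : b * (x * v) = 1 := by
        have h1 : b * x = (v⁻¹ : Mˣ) := by
          rw [mul_assoc] at hx
          calc b * x = (v⁻¹ : Mˣ) * (v * (b * x)) := by rw [← mul_assoc, Units.inv_mul, one_mul]
            _ = (v⁻¹ : Mˣ) := by rw [hx, mul_one]
        rw [← mul_assoc, h1, Units.inv_mul]
      exact v.isUnit.mul (ihb _ hb)
  have hu : IsUnit (C.τ 0) := key _ hmem (C.Φ fun _ => 1) (C.τ_Φ _ _)
  obtain ⟨a, b, hab⟩ := exists_pair_ne M
  have h1 : C.τ 0 * C.Φ (fun i => if i = 0 then 1 else a) =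
      C.τ 0 * C.Φ (fun i => if i = 0 then 1 else b) := by
    rw [C.τ_Φ, C.τ_Φ]
    simp
  have h2 := C.Φ.injective (hu.mul_left_cancel h1)
  have h3 := congrFun h2 1
  simp at h3
  exact hab h3

/-- All maps from (a copy of) `ℕ` to itself form a CP monoid. -/
def natDCP : DCP (Function.End (ULift.{u} ℕ)) 2 where
  Φ :=
    { toFun := fun m n => ⟨Nat.pair (m 0 n).down (m 1 n).down⟩
      invFun := fun g i n => if i = 0 then ⟨(Nat.unpair (g n).down).1⟩
        else ⟨(Nat.unpair (g n).down).2⟩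
      left_inv := by
        intro m
        funext i n
        fin_cases i
        · simp
        · simp
      right_inv := by
        intro g
        funext n
        simp }
  τ := fun i n => if i = 0 then ⟨(Nat.unpair n.down).1⟩ else ⟨(Nat.unpair n.down).2⟩
  τ_Φ := by
    intro m i
    funext n
    show (if i = 0 then (⟨(Nat.unpair (Nat.pair (m 0 n).down (m 1 n).down)).1⟩ : ULift ℕ) else
      ⟨(Nat.unpair (Nat.pair (m 0 n).down (m 1 n).down)).2⟩) = m i n
    fin_cases i
    · simp
    · simp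

/-- **Main result.** (1) In every non-zero CP monoid, the element `π₁` is not a product of elements
of the sets `φ_Φ(E_d)`, for arbitrary `d` and arbitrary `d`-CP structures on the monoid.
(2) In particular, for the universal CP monoid `U`, the submonoid `G` generated by the sets
`φ_Φ(E_d)`, where `2 ≤ d < ∞` and `Φ` is in `𝕊(U)`, does not contain `π₁`; so `G ≠ U`. -/
theorem result :
    (∀ (M : Type u) [Monoid M] [Nontrivial M] (C : DCP M 2),
      C.τ 0 ∉ Submonoid.closure {x : M | ∃ (d : ℕ) (D : DCP M d) (f : Fin d → Fin d),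
        x = D.phi f}) ∧
    (∀ (U : Type u) [Monoid U] (C : DCP U 2), IsUniversal C → C.τ 0 ∉ G C ∧ G C ≠ ⊤) := by
  refine ⟨fun M _ _ C => not_mem C, fun U _ C hU => ?_⟩
  have hnt : Nontrivial U := by
    obtain ⟨f, ⟨hf, -⟩, -⟩ := hU _ natDCP
    refine ⟨⟨C.τ 0, 1, fun h => ?_⟩⟩
    have h1 := hf 0
    rw [h, map_one] at h1
    have h2 : (1 : Function.End (ULift.{u} ℕ)) ⟨Nat.pair 0 1⟩ = natDCP.τ 0 ⟨Nat.pair 0 1⟩ :=
      congrFun h1 _
    have h3 : natDCP.τ 0 ⟨Nat.pair 0 1⟩ = (⟨0⟩ : ULift ℕ) := by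
      simp [natDCP]
    rw [h3] at h2
    have h4 : Nat.pair 0 1 = 0 := congrArg ULift.down h2
    exact absurd h4 (by decide)
  have h1 : C.τ 0 ∉ G C := by
    intro h
    refine not_mem C (Submonoid.closure_mono ?_ h)
    rintro x ⟨d, -, D, -, f, rfl⟩
    exact ⟨d, D, f, rfl⟩
  refine ⟨h1, fun h => h1 ?_⟩
  rw [h]
  exact Submonoid.mem_top _

end Pool.Agent.Results.MP_339db1_al.ProjectionNotGenerated
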